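import Pool.Agent.L0h86.JR.Stm

/-!
# JR: the systems satisfy the hypotheses
-/

set_option autoImplicit false
set_option linter.unusedSectionVars false

open scoped Classical

namespace Pool.Agent.L0h75.JR

open Finset
open Pool.Agent.Y703.CQ (nr sg)
open Pool.Agent.N973.ND (Pr ty uu)
open Pool.Agent.N916.GB (Po sy Vt)
open Pool.Agent.L0h74.EV (Cl n2)
open Pool.Agent.L0h74.AP (Cp)
open Pool.Agent.L0h86.JR

lemma nr_two {q : ℕ} (hq : Pr q) : nr q 2 = n2 q := by
  have := Fact.mk hq.1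
  unfold nr n2
  have h := ZMod.exists_sq_eq_two_iff hq.2.1
  have h2 : ((2 : ℕ) : ZMod q) = 2 := by norm_num
  have hodd : q % 2 = 1 := hq.1.eq_two_or_odd.resolve_left hq.2.1
  rw [h2]
  by_cases h8 : q % 8 = 1 ∨ q % 8 = 7
  · rw [if_pos (h.2 h8), if_neg (by omega)]
  · rw [if_neg (fun h' => h8 (h.1 h')), if_pos (by omega)]

lemma oR_odd {g : ℕ} (hg : Squarefree g) : oR g % 2 = 1 := by
  unfold oR
  split_ifs with h
  · exact h
  · by_contra h2
    have h4 : 2 * 2 ∣ g := by omega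
    exact absurd (hg 2 h4) (by rw [Nat.isUnit_iff]; norm_num)

lemma oR_sf {g : ℕ} (hg : Squarefree g) : Squarefree (oR g) := by
  unfold oR
  split_ifs with h
  · exact hg
  · exact Squarefree.squarefree_of_dvd (Nat.div_dvd_of_dvd (by omega)) hg

lemma dvd_oR {g p : ℕ} (hp : p.Prime) (h2 : p ≠ 2) : p ∣ oR g ↔ p ∣ g := by
  unfold oR
  split_ifs with h
  · exact Iff.rfl
  · constructor
    · intro h1
      exact h1.trans (Nat.div_dvd_of_dvd (by omega))
    · intro h1
      have e : g = 2 * (g / 2) := by omega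
      rw [e] at h1
      rcases (Nat.Prime.dvd_mul hp).1 h1 with h3 | h3
      · exact absurd ((Nat.prime_dvd_prime_iff_eq hp Nat.prime_two).1 h3) h2
      · exact h3

/-- the number of the primes `3` modulo `4` -/
lemma par4 {S : Finset ℕ} (hS : ∀ p ∈ S, p % 2 = 1) :
    (((S.filter fun p => p % 4 = 3).card % 2 = 0 ∧ (∏ p ∈ S, p) % 4 = 1) ∨
      ((S.filter fun p => p % 4 = 3).card % 2 = 1 ∧ (∏ p ∈ S, p) % 4 = 3)) := by
  induction S using Finset.induction_on with
  | empty => left; simp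
  | insert q S hq ih =>
    have ih' := ih fun p hp => hS p (mem_insert_of_mem hp)
    have h1 := hS q (mem_insert_self _ _)
    rw [prod_insert hq, filter_insert]
    by_cases h3 : q % 4 = 3
    · rw [if_pos h3, card_insert_of_notMem (fun h => hq (mem_filter.1 h).1)]
      rcases ih' with ⟨h4, h5⟩ | ⟨h4, h5⟩
      · right; refine ⟨by omega, ?_⟩; rw [Nat.mul_mod, h3, h5]
      · left; refine ⟨by omega, ?_⟩; rw [Nat.mul_mod, h3, h5]
    · have h4' : q % 4 = 1 := by omega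
      rw [if_neg h3]
      rcases ih' with ⟨h4, h5⟩ | ⟨h4, h5⟩
      · left; refine ⟨h4, ?_⟩; rw [Nat.mul_mod, h4', h5]
      · right; refine ⟨h4, ?_⟩; rw [Nat.mul_mod, h4', h5]

/-- the class of a prime divisor of the modulus -/
lemma cls (hCLS : Pool.Agent.L0h2.P.S_CLS) (hCL7 : S_CL7) {u : ℕ} (h56 : 56 ∣ u) (hu : 0 < u)
    {r : ℕ} (hr : r.Prime) (hru : r ∣ u) :
    ∃ c : ℕ, c < 7 * u ∧ c.Coprime (7 * u) ∧ ∀ q, Pr q → q % (7 * u) = c → uu q = 0 ∧
      (∀ v, Po v → v ∣ u → nr v q = if v = r then 1 else 0) ∧ nr q 2 = if r = 2 then 1 else 0 := by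
  by_cases h7 : r = 7
  · subst h7
    obtain ⟨c, hc, hcc, h⟩ := hCL7 u h56 hu
    refine ⟨c, hc, hcc, fun q hq hqc => ?_⟩
    obtain ⟨h1, -, h3, h4, h5⟩ := h q hq hqc
    refine ⟨h1, fun v hv hvu => ?_, by rw [nr_two hq, h5, if_neg (by norm_num)]⟩
    by_cases hv7 : v = 7
    · rw [if_pos hv7, hv7, h3]
    · rw [if_neg hv7, h4 v ⟨hv.1, hv.2, hv7⟩ hvu]
  · have hr' : r = 2 ∨ (Pr r ∧ r ∣ u) := by
      by_cases h2 : r = 2
      · exact Or.inl h2
      · exact Or.inr ⟨⟨hr, h2, h7⟩, hru⟩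
    obtain ⟨c, hc, hcc, h⟩ := hCLS u h56 hu r hr'
    refine ⟨c, hc, hcc, fun q hq hqc => ?_⟩
    obtain ⟨h1, h2, h3⟩ := h q hq hqc
    have hty : q % 4 ≠ 3 ∧ (q % 7 = 1 ∨ q % 7 = 2 ∨ q % 7 = 4) := by
      unfold ty Pool.Agent.N973.ND.m7 at h1
      split_ifs at h1 with h4 h5 h5 <;> simp_all
    refine ⟨by unfold uu; rw [if_neg hty.1], fun v hv hvu => ?_, by rw [nr_two hq, h3]⟩
    by_cases hv7 : v = 7
    · rw [if_neg (by rw [hv7]; exact fun h => h7 h.symm), hv7]
      unfold nr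
      rw [if_pos]
      have h8 : (q : ZMod 7) = ((q % 7 : ℕ) : ZMod 7) := (ZMod.natCast_mod q 7).symm
      rw [h8]
      rcases hty.2 with h9 | h9 | h9 <;> rw [h9]
      · exact ⟨1, by decide⟩
      · exact ⟨3, by decide⟩
      · exact ⟨2, by decide⟩
    · rw [h2 v ⟨hv.1, hv.2, hv7⟩ hvu]

/-- the diagonal of the system -/
lemma dgR_eq {u a g r q : ℕ} (hg : Squarefree g) (hgu : ∀ p, p.Prime → p ∣ g → p ∣ u)
    (hr : r.Prime) (hu : uu q = 0)
    (hv : ∀ v, Po v → v ∣ u → nr v q = if v = r then 1 else 0)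
    (h2 : nr q 2 = if r = 2 then 1 else 0) :
    dgR (sysR g a) q = if r ∣ g then 1 else 0 := by
  have h0 : g ≠ 0 := hg.ne_zero
  have hW : ∀ v ∈ (oR g).primeFactors, Po v ∧ v ∣ g := by
    intro v hv
    have h3 := Nat.prime_of_mem_primeFactors hv
    have h4 := Nat.dvd_of_mem_primeFactors hv
    have h5 : v ≠ 2 := by
      rintro rfl
      have := oR_odd hg
      omega
    exact ⟨⟨h3, h5⟩, (dvd_oR h3 h5).1 h4⟩
  have hs : ∑ v ∈ (oR g).primeFactors, sy (sysR g a).r (sysR g a).s q v =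
      if r ≠ 2 ∧ r ∣ g then 1 else 0 := by
    have h6 : ∀ v ∈ (oR g).primeFactors, sy (sysR g a).r (sysR g a).s q v =
        if v = r then 1 else 0 := by
      intro v hv'
      obtain ⟨h7, h8⟩ := hW v hv'
      unfold sy
      rw [if_neg h7.2]
      exact hv v h7 (hgu v h7.1 h8)
    rw [Finset.sum_congr rfl h6, Finset.sum_ite_eq']
    by_cases h9 : r ≠ 2 ∧ r ∣ g
    · rw [if_pos h9, if_pos]
      rw [Nat.mem_primeFactors]
      refine ⟨hr, (dvd_oR hr h9.1).2 h9.2, ?_⟩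
      have := oR_odd hg
      omega
    · rw [if_neg h9, if_neg]
      intro h10
      obtain ⟨h7, h8⟩ := hW r h10
      exact h9 ⟨h7.2, h8⟩
  have h2n : 2 ∉ (oR g).primeFactors := fun h => (hW 2 h).1.2 rfl
  have hsy : sy (sysR g a).r (sysR g a).s q 2 = if r = 2 ∧ 2 ∣ g then 1 else 0 := by
    unfold sy
    rw [if_pos rfl, h2, hu, mul_zero, add_zero]
    show (if g % 2 = 0 then (1 : ZMod 2) else 0) * _ = _
    by_cases h3 : r = 2 <;> by_cases h4 : g % 2 = 0
    · rw [if_pos h3, if_pos h4, if_pos ⟨h3, by omega⟩, mul_one]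
    · rw [if_pos h3, if_neg h4, if_neg (fun h => h4 (by omega)), zero_mul]
    · rw [if_neg h3, mul_zero, if_neg (fun h => h3 h.1)]
    · rw [if_neg h3, mul_zero, if_neg (fun h => h3 h.1)]
  unfold dgR Vt
  show ∑ v ∈ if (sysR g a).t = true then insert 2 (oR g).primeFactors else (oR g).primeFactors,
    sy (sysR g a).r (sysR g a).s q v = _
  by_cases ht : (sysR g a).t = true
  · rw [if_pos ht, Finset.sum_insert h2n, hs, hsy]
    by_cases h3 : r = 2
    · subst h3
      by_cases h4 : 2 ∣ g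
      · simp [h4]
      · simp [h4]
    · by_cases h4 : r ∣ g
      · simp [h3, h4]
      · simp [h3, h4]
  · rw [if_neg ht, hs]
    have h5 : ¬ g % 2 = 0 := by
      intro h6
      apply ht
      show decide (g % 2 = 0 ∨ (oR g * a) % 4 = 1) = true
      rw [decide_eq_true_eq]
      exact Or.inl h6
    by_cases h3 : r = 2
    · subst h3
      rw [if_neg (fun h => h.1 rfl), if_neg (fun h => h5 (by omega))]
    · by_cases h4 : r ∣ g
      · simp [h3, h4]
      · simp [h4]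

theorem t_HYR : Pool.Agent.L0h2.P.S_CLS → S_CL7 → S_HYR := by
  intro hCLS hCL7 u a hc h56 t g hg hgu hinj
  have hu : 0 < u := hc.pos
  set e := u.primeFactors.equivFin with he
  have hpr : ∀ i : Fin u.primeFactors.card, ((e.symm i : ℕ)).Prime ∧ (e.symm i : ℕ) ∣ u := fun i =>
    ⟨Nat.prime_of_mem_primeFactors (e.symm i).2, Nat.dvd_of_mem_primeFactors (e.symm i).2⟩
  choose c hc1 hc2 hc3 using fun i : Fin u.primeFactors.card =>
    cls hCLS hCL7 h56 hu (hpr i).1 (hpr i).2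
  have ha2 : a % 2 = 1 := by
    have h1 : a.Coprime 2 := Nat.Coprime.coprime_dvd_right (by
      exact (by norm_num : 2 ∣ 56).trans h56) hc.cop
    rcases Nat.mod_two_eq_zero_or_one a with h2 | h2
    · exfalso
      have h3 := Nat.dvd_gcd (Nat.dvd_of_mod_eq_zero h2) (dvd_refl 2)
      rw [h1] at h3
      omega
    · exact h2
  have hodd : ∀ l, (oR (g l) * a) % 2 = 1 := fun l => by
    rw [Nat.mul_mod, oR_odd (hg l), ha2]
  have hW : ∀ l, ∀ v ∈ (sysR (g l) a).W, Po v ∧ v ∣ u := by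
    intro l v hv
    have h3 := Nat.prime_of_mem_primeFactors hv
    have h4 := Nat.dvd_of_mem_primeFactors hv
    have h5 : v ≠ 2 := by
      rintro rfl
      have := oR_odd (hg l)
      omega
    exact ⟨⟨h3, h5⟩, hgu l v h3 ((dvd_oR h3 h5).1 h4)⟩
  refine ⟨u.primeFactors.card, c, fun l i => if (e.symm i : ℕ) ∣ g l then 1 else 0, ?_⟩
  refine ⟨hc, h56, ?_, ?_, hW, ?_, fun i => ⟨hc1 i, hc2 i⟩, ?_, ?_⟩
  · intro l hl
    have h1 : ¬ (g l % 2 = 0 ∨ (oR (g l) * a) % 4 = 1) := by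
      intro h2
      have h3 : (sysR (g l) a).t = true := decide_eq_true h2
      rw [hl] at h3
      exact absurd h3 (by decide)
    show (if (oR (g l) * a) % 4 = 3 then (0 : ZMod 2) else 1) = 0
    have h2 := hodd l
    rw [if_pos (by omega)]
  · intro l hl
    have h1 : g l % 2 = 0 ∨ (oR (g l) * a) % 4 = 1 := of_decide_eq_true hl
    rcases h1 with h2 | h2
    · left
      show (if g l % 2 = 0 then (1 : ZMod 2) else 0) ≠ 0
      rw [if_pos h2]
      exact one_ne_zero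
    · right
      show (if (oR (g l) * a) % 4 = 3 then (0 : ZMod 2) else 1) ≠ 0
      rw [if_neg (by omega)]
      exact one_ne_zero
  · intro l S hS
    have hSu : Disjoint S (sysR (g l) a).W := by
      rw [Finset.disjoint_left]
      intro p hp hpW
      have h1 := (hW l p hpW).2
      have h2 : p ∣ ∏ p ∈ S, p := Finset.dvd_prod_of_mem _ hp
      have h3 : p ∣ (∏ p ∈ S, p) % u := (Nat.dvd_mod_iff h1).2 h2
      rw [hS.2] at h3
      have h4 := Nat.dvd_gcd h3 h1
      rw [hc.cop] at h4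
      exact (hS.1 p hp).1.one_lt.ne' (Nat.dvd_one.1 h4)
    have hprod : (∏ p ∈ S ∪ (sysR (g l) a).W, p) % 4 = (oR (g l) * a) % 4 := by
      rw [Finset.prod_union hSu]
      have h1 : ∏ p ∈ (sysR (g l) a).W, p = oR (g l) := Nat.prod_primeFactors_of_squarefree (oR_sf (hg l))
      have h2 : (∏ p ∈ S, p) % 4 = a % 4 := by
        rw [← hS.2, Nat.mod_mod_of_dvd _ ((by norm_num : 4 ∣ 56).trans h56)]
      rw [h1, Nat.mul_mod, h2, ← Nat.mul_mod, mul_comm]
    have h4 := par4 (S := S ∪ (sysR (g l) a).W) (fun p hp => by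
      rcases Finset.mem_union.1 hp with h | h
      · exact (hS.1 p h).1.eq_two_or_odd.resolve_left (hS.1 p h).2.1
      · exact (hW l p h).1.1.eq_two_or_odd.resolve_left (hW l p h).1.2)
    rw [hprod] at h4
    show (((S ∪ (sysR (g l) a).W).filter fun p => p % 4 = 3).card +
      (if (if (oR (g l) * a) % 4 = 3 then (0 : ZMod 2) else 1) = 0 then 0 else 1)) % 2 = 1
    rcases h4 with ⟨h5, h6⟩ | ⟨h5, h6⟩
    · rw [if_neg (by omega : ¬ (oR (g l) * a) % 4 = 3), if_neg one_ne_zero]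
      omega
    · rw [if_pos h6, if_pos rfl]
      omega
  · intro l i p hp hpc
    obtain ⟨h1, h2, h3⟩ := hc3 i p hp hpc
    exact ⟨h1, dgR_eq (hg l) (hgu l) (hpr i).1 h1 h2 h3⟩
  · intro l l' hll
    by_contra hcon
    push Not at hcon
    apply hll
    apply hinj
    have h1 : ∀ p, p.Prime → p ∣ u → (p ∣ g l ↔ p ∣ g l') := by
      intro p hp hpu
      have h2 := hcon (e ⟨p, Nat.mem_primeFactors.2 ⟨hp, hpu, hu.ne'⟩⟩)
      rw [Equiv.symm_apply_apply] at h2
      by_cases h3 : p ∣ g l <;> by_cases h4 : p ∣ g l'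
      · exact iff_of_true h3 h4
      · simp [h3, h4] at h2
      · simp [h3, h4] at h2
      · exact iff_of_false h3 h4
    rw [← Nat.prod_primeFactors_of_squarefree (hg l), ← Nat.prod_primeFactors_of_squarefree (hg l')]
    congr 1
    ext p
    rw [Nat.mem_primeFactors, Nat.mem_primeFactors]
    constructor
    · rintro ⟨hp, hpg, -⟩
      exact ⟨hp, (h1 p hp (hgu l p hp hpg)).1 hpg, (hg l').ne_zero⟩
    · rintro ⟨hp, hpg, -⟩
      exact ⟨hp, (h1 p hp (hgu l' p hp hpg)).2 hpg, (hg l).ne_zero⟩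

end Pool.Agent.L0h75.JR
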